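import Pool.Agent.W953.SR.CmpModel
import Pool.Agent.W953.NB.DirCompl

/-!
# The inclusions NL ⊆ CC ⊆ P: few tests on few slices

Comparator circuits of polynomial size over the literals are exactly CC/poly, directed switching
networks of polynomial size over the literals are exactly NL/poly. For monotone functions it is asked
how much can be done by decision trees of depth `t` whose tests and leaves are comparator circuits
(or directed networks) without negations, on few consecutive slices (a slice consists of the inputs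
with a given number of ones).

(A), (B): the questions whether CC/poly = P/poly and whether NL/poly = CC/poly are equivalent to
their versions for such trees of depth `t` on `2 ^ t (w + 1)` slices, for every constant `w`, and
for trees of depth `log n - K` on all inputs, for every constant `K`.

(C): without any assumption, for monotone functions of `U` variables that have circuits of size
`3 U` without NOT gates, trees of comparator circuits with fewer than `4 ^ D` wires and depth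
`log U - log D - 8 log log D - O(1)` are not enough (in a more general form, for computations in
rounds), and the same holds for path systems, which are complete for P.
-/

set_option autoImplicit false

namespace Pool.Agent.Results.MP_9a4607_lc.TestsOnSlices

open Pool.Agent.H540R2 Pool.Agent.W953.SP Pool.Agent.W953.NB Pool.Agent.W953.SR

variable {n : ℕ}

/-- the number of ones of an input -/
def ones (x : Fin n → Bool) : ℕ := (Finset.univ.filter (fun i => x i = true)).card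

/-- the variables and their negations -/
def literals (x : Fin n → Bool) : Fin (n + n) → Bool := Fin.append x (fun i => !(x i))

/-- `f` has a circuit with at most `s` gates -/
def Circ (n : ℕ) (f : (Fin n → Bool) → Bool) (s : ℕ) : Prop :=
  ∃ C : Circuit n, C.size ≤ s ∧ ∀ x, C.eval x = f x

/-- `f` has a circuit with at most `s` gates, none of them a NOT gate -/
def MonCirc (n : ℕ) (f : (Fin n → Bool) → Bool) (s : ℕ) : Prop :=
  ∃ C : Circuit n, C.Monotone ∧ C.size ≤ s ∧ ∀ x, C.eval x = f x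

/-- `f` has a comparator circuit of size at most `s` over the literals -/
def Comp (n : ℕ) (f : (Fin n → Bool) → Bool) (s : ℕ) : Prop :=
  ∃ C : Cmp (Fin (n + n)), C.size ≤ s ∧ ∀ x, C.val (literals x) = f x

/-- `f` has a comparator circuit of size at most `s` without negations -/
def MonComp (n : ℕ) (f : (Fin n → Bool) → Bool) (s : ℕ) : Prop :=
  ∃ C : Cmp (Fin n), C.size ≤ s ∧ ∀ x, C.val x = f x

/-- `f` has a directed network of size at most `s` over the literals -/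
def Dir (n : ℕ) (f : (Fin n → Bool) → Bool) (s : ℕ) : Prop :=
  ∃ N : Net (Fin (n + n)), N.size ≤ s ∧ ∀ x, N.DAcc (literals x) ↔ f x = true

/-- complexity `S` in the sense of `B` implies complexity `S ^ O(1)` in the sense of `A`, for
functions of at most `S` variables -/
def Sim (A B : ∀ n : ℕ, ((Fin n → Bool) → Bool) → ℕ → Prop) : Prop :=
  ∃ c : ℕ, ∀ (S n : ℕ) (f : (Fin n → Bool) → Bool), 2 ≤ S → n ≤ S → B n f S → A n f (S ^ c)

section

variable {T : ℕ → Type 1}

/-- every monotone function `f` of `n ≤ S` variables with complexity `S` in the sense of `B` agrees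
on the `2 ^ t (w + 1)` slices from `k` on with a decision tree of depth at most `t` and size
`S ^ O(1)` whose tests are from `𝒯` -/
def TestsAndSlices (𝒯 : ∀ n : ℕ, Tests (T n) (Fin n))
    (B : ∀ n : ℕ, ((Fin n → Bool) → Bool) → ℕ → Prop) (w : ℕ) : Prop :=
  ∃ c : ℕ, ∀ (S n : ℕ) (f : (Fin n → Bool) → Bool), 2 ≤ S → n ≤ S → B n f S →
    (∀ x y : Fin n → Bool, (∀ i, x i ≤ y i) → f x ≤ f y) →
    ∀ k t : ℕ, ∃ p : DTree (T n), p.depth ≤ t ∧ p.size (𝒯 n) ≤ S ^ c ∧
      ∀ x, k ≤ ones x → ones x < k + 2 ^ t * (w + 1) → (p.Acc (𝒯 n) x ↔ f x = true)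

/-- the same with depth `log n - K` on all inputs -/
def FewTests (𝒯 : ∀ n : ℕ, Tests (T n) (Fin n))
    (B : ∀ n : ℕ, ((Fin n → Bool) → Bool) → ℕ → Prop) (K : ℕ) : Prop :=
  ∃ c : ℕ, ∀ (S n : ℕ) (f : (Fin n → Bool) → Bool), 2 ≤ S → n ≤ S → B n f S →
    (∀ x y : Fin n → Bool, (∀ i, x i ≤ y i) → f x ≤ f y) →
    ∃ p : DTree (T n), p.depth ≤ Nat.log 2 n - K ∧ p.size (𝒯 n) ≤ S ^ c ∧
      ∀ x, p.Acc (𝒯 n) x ↔ f x = true

/-- every function `f` of `n ≤ S` variables with complexity `S` in the sense of `B` agrees on the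
`w n + 1` slices from `k` on with such a tree of depth at most `t n` and size `S ^ O(1)` -/
def SomeTestsSomeSlices (𝒯 : ∀ n : ℕ, Tests (T n) (Fin n))
    (B : ∀ n : ℕ, ((Fin n → Bool) → Bool) → ℕ → Prop) (t w : ℕ → ℕ) : Prop :=
  ∃ c : ℕ, ∀ (S n : ℕ) (f : (Fin n → Bool) → Bool), 2 ≤ S → n ≤ S → B n f S →
    ∀ k : ℕ, ∃ p : DTree (T n), p.depth ≤ t n ∧ p.size (𝒯 n) ≤ S ^ c ∧
      ∀ x, k ≤ ones x → ones x ≤ k + w n → (p.Acc (𝒯 n) x ↔ f x = true)

/-- the four equivalent statements for the tests `𝒯` and the measures `A` (for the tests with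
negated variables), `B` and `M` (`B` without negations) -/
def Equivalent (𝒯 : ∀ n : ℕ, Tests (T n) (Fin n))
    (A B M : ∀ n : ℕ, ((Fin n → Bool) → Bool) → ℕ → Prop) : Prop :=
  List.TFAE [Sim A B, ∀ w : ℕ, TestsAndSlices 𝒯 B w, ∀ K : ℕ, FewTests 𝒯 B K,
    ∃ t w : ℕ → ℕ, SomeTestsSomeSlices 𝒯 M t w]

open Classical in
lemma transfer (𝒯 : ∀ n : ℕ, Tests (T n) (Fin n)) (𝓐 : Model) (𝓑 : Big)
    (A B M : ∀ n : ℕ, ((Fin n → Bool) → Bool) → ℕ → Prop)
    (hA : ∀ n f s, 1 ≤ s → (A n f s ↔ 𝓐.L f s)) (hB : ∀ n f s, 1 ≤ s → (B n f s ↔ 𝓑.G f s))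
    (hM : ∀ n f s, 1 ≤ s → (M n f s ↔ 𝓑.M f s))
    (h𝓐 : ∀ (n : ℕ) (f : BF n) (s : ℕ), 𝓐.K f s →
      ∃ P : T n, (𝒯 n).size P ≤ s + 1 ∧ ∀ x, (𝒯 n).acc P x ↔ f x = true)
    (h𝓐' : ∀ (n : ℕ) (P : T n),
      𝓐.K (fun x : Fin n → Bool => decide ((𝒯 n).acc P x)) ((𝒯 n).size P))
    {c : ℕ} (hc : 1 ≤ c) (hcompl : 𝓐.Compl c) : Equivalent 𝒯 A B M := by
  have hT := tfae (𝓐 := 𝓐) (𝓑 := 𝓑) hc hcompl
  have hT1 : Poly 𝓐 𝓑 → ∀ w, Windows 𝓐 𝓑 w := (hT.out 0 1).mp
  have hT2 : Poly 𝓐 𝓑 → ∀ K, Few 𝓐 𝓑 K := (hT.out 0 2).mp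
  have hT3 : (∃ t w : ℕ → ℕ, Some' 𝓐 𝓑 t w) → Poly 𝓐 𝓑 := (hT.out 0 3).mpr
  have hpos : ∀ S c : ℕ, 2 ≤ S → 1 ≤ S ^ c := fun S c hS => Nat.one_le_pow _ _ (by omega)
  have htwo : ∀ S c : ℕ, 2 ≤ S → 2 * S ^ c ≤ S ^ (c + 1) := fun S c hS => by
    rw [pow_succ']
    exact Nat.mul_le_mul_right _ hS
  have h1 : Poly 𝓐 𝓑 → Sim A B := by
    rintro ⟨c, hc⟩
    exact ⟨c, fun S n f hS hn hf => (hA n f _ (hpos S c hS)).mpr
      (hc S n f hS hn ((hB n f S (by omega)).mp hf))⟩
  have h1' : Sim A B → Poly 𝓐 𝓑 := by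
    rintro ⟨c, hc⟩
    exact ⟨c, fun S n f hS hn hf => (hA n f _ (hpos S c hS)).mp
      (hc S n f hS hn ((hB n f S (by omega)).mpr hf))⟩
  have h2 : ∀ w, Windows 𝓐 𝓑 w → TestsAndSlices 𝒯 B w := by
    rintro w ⟨c, hc⟩
    refine ⟨c + 1, fun S n f hS hn hf hmon k t => ?_⟩
    obtain ⟨g, hg, hgx⟩ := hc S n f hS hn ((hB n f S (by omega)).mp hf) hmon k t
    obtain ⟨p, p1, p2, p3⟩ := tree_of_TA' (h𝓐 n) hg
    exact ⟨p, p1, p2.trans (htwo S c hS), fun x hx1 hx2 => by rw [p3, hgx x hx1 hx2]⟩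
  have h3 : ∀ K, Few 𝓐 𝓑 K → FewTests 𝒯 B K := by
    rintro K ⟨c, hc⟩
    refine ⟨c + 1, fun S n f hS hn hf hmon => ?_⟩
    obtain ⟨p, p1, p2, p3⟩ :=
      tree_of_TA' (h𝓐 n) (hc S n f hS hn ((hB n f S (by omega)).mp hf) hmon)
    exact ⟨p, p1, p2.trans (htwo S c hS), p3⟩
  have h4 : ∀ t w, SomeTestsSomeSlices 𝒯 M t w → Some' 𝓐 𝓑 t w := by
    rintro t w ⟨c, hc⟩
    refine ⟨c, fun S n f hS hn hf k => ?_⟩
    obtain ⟨p, p1, p2, p3⟩ := hc S n f hS hn ((hM n f S (by omega)).mpr hf) k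
    refine ⟨_, TA_of_tree (h𝓐' n) p _ _ p1 p2, fun x hx1 hx2 => ?_⟩
    rw [Bool.eq_iff_iff, decide_eq_true_iff]
    exact p3 x hx1 hx2
  have h24 : (∀ w : ℕ, TestsAndSlices 𝒯 B w) → ∃ t w : ℕ → ℕ, SomeTestsSomeSlices 𝒯 M t w := by
    intro h
    obtain ⟨c, hc⟩ := h 0
    refine ⟨fun _ => 0, fun _ => 0, c, fun S n f hS hn hf k => ?_⟩
    have hf' := (hM n f S (by omega)).mp hf
    obtain ⟨p, p1, p2, p3⟩ :=
      hc S n f hS hn ((hB n f S (by omega)).mpr (𝓑.toG hf')) (𝓑.incr hf') k 0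
    exact ⟨p, p1, p2, fun x hx1 hx2 => p3 x hx1 (by simpa using Nat.lt_succ_of_le hx2)⟩
  have h34 : (∀ K : ℕ, FewTests 𝒯 B K) → ∃ t w : ℕ → ℕ, SomeTestsSomeSlices 𝒯 M t w := by
    intro h
    obtain ⟨c, hc⟩ := h 0
    refine ⟨fun n => Nat.log 2 n - 0, fun n => n, c, fun S n f hS hn hf k => ?_⟩
    have hf' := (hM n f S (by omega)).mp hf
    obtain ⟨p, p1, p2, p3⟩ :=
      hc S n f hS hn ((hB n f S (by omega)).mpr (𝓑.toG hf')) (𝓑.incr hf')
    exact ⟨p, p1, p2, fun x _ _ => p3 x⟩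
  unfold Equivalent
  tfae_have 1 → 2 := fun h w => h2 w (hT1 (h1' h) w)
  tfae_have 1 → 3 := fun h K => h3 K (hT2 (h1' h) K)
  tfae_have 2 → 4 := h24
  tfae_have 3 → 4 := h34
  tfae_have 4 → 1 := fun ⟨t, w, h⟩ => h1 (hT3 ⟨t, w, h4 t w h⟩)
  tfae_finish

end

/-- the function `D (log D) ^ e` -/
def near (e D : ℕ) : ℕ := (D + 1) * (Nat.log 2 (D + 1) + 6) ^ e

lemma comp_iff (n : ℕ) (f : BF n) (s : ℕ) (hs : 1 ≤ s) : Comp n f s ↔ cmp.L f s := by
  constructor
  · rintro ⟨C, c1, c2⟩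
    exact ⟨C.val, Or.inl ⟨C, c1, fun _ => rfl⟩, c2⟩
  · rintro ⟨Q, hQ, hQf⟩
    obtain ⟨C, c1, c2⟩ := cmpK.circ hQ hs
    exact ⟨C, c1, fun x => by rw [c2]; exact hQf x⟩

/-- (A) CC/poly = P/poly is equivalent to its versions with few tests by comparator circuits
without negations on few slices.
(B) NL/poly = CC/poly is equivalent to its versions with few tests by monotone directed networks
on few slices.
(C) Let `p` be a computation in rounds with comparator circuits without negations as tests, with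
fewer than `4 ^ (D + 1)` wires (and any number of comparators) on each path. (1) If `p` decides for
all path systems on `E` whether `g` is derivable, then `|E| ≤ 2 ^ 19 near 4 D cost(p)`. (2) Let
`U = M 2 ^ 42 near 8 D` with `M ≥ 1`. For all `r` there is a circuit `C` with `U + r` variables and
at most `3 U` gates, none of them a NOT gate, such that for all `k ≤ r` no such `p` with
`cost(p) ≤ M` agrees with `C` on all inputs with at least `k` and at most `k + U` ones. -/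
theorem result :
    Equivalent (fun n => cmpTests (Fin n)) Comp Circ MonCirc ∧
    Equivalent (fun n => dnetTests (Fin n)) Dir Comp MonComp ∧
    ∀ D : ℕ,
      (∀ (E : Type) [Fintype E] (g : E) (p : Prog (Cmp (PS E))),
        p.load (wireTests _) < 4 ^ (D + 1) →
        (∀ v : PS E → Bool, p.Acc (wireTests _) v ↔ Solv v g) →
        Fintype.card E ≤ 2 ^ 19 * near 4 D * p.cost) ∧
      ∀ M r U : ℕ, 1 ≤ M → U = M * (2 ^ 42 * near 8 D) →
        ∃ C : Circuit (U + r), C.Monotone ∧ C.size ≤ 3 * U ∧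
          ∀ k ≤ r, ∀ p : Prog (Cmp (Fin (U + r))), p.cost ≤ M →
            p.load (wireTests _) < 4 ^ (D + 1) →
            ∃ x, k ≤ ones x ∧ ones x ≤ k + U ∧ ¬ (p.Acc (wireTests _) x ↔ C.eval x = true) := by
  classical
  refine ⟨?_, ?_, fun D => ?_⟩
  · refine transfer _ cmp circB Comp Circ MonCirc comp_iff (fun _ _ _ _ => Iff.rfl)
      (fun _ _ _ _ => Iff.rfl) ?_ (fun n P => Or.inl ⟨P, le_rfl, fun x => ?_⟩) le_rfl cmp_compl
    · intro n f s h
      obtain ⟨C, c1, c2⟩ := cmpK.circ (cmp.mono h (Nat.le_succ s)) (by omega)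
      exact ⟨C, c1, fun x => Iff.of_eq (congrArg (· = true) (c2 x))⟩
    · rw [Bool.eq_iff_iff, decide_eq_true_iff]
      exact Iff.rfl
  · refine transfer _ dir cmpB Dir Comp MonComp ?_ (fun n f s hs => comp_iff n f s hs)
      (fun n f s hs => ?_) (fun n f s ⟨N, h1, h2⟩ => ⟨N, h1.trans (Nat.le_succ s), h2⟩)
      (fun n P => ⟨P, le_rfl, fun x => by rw [decide_eq_true_iff]; rfl⟩) (by norm_num) dir_compl
    · intro n f s _
      constructor
      · rintro ⟨N, hN, hNf⟩
        refine ⟨fun y => decide (N.DAcc y), ⟨N, hN, fun y => decide_eq_true_iff.symm⟩, fun x => ?_⟩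
        rw [Bool.eq_iff_iff, decide_eq_true_iff]
        exact hNf x
      · rintro ⟨Q, ⟨N, hN, hNQ⟩, hQ⟩
        exact ⟨N, hN, fun x => by rw [hNQ]; exact Iff.of_eq (congrArg (· = true) (hQ x))⟩
    · exact ⟨fun h => Or.inl h, fun h => cmpK.circ h hs⟩
  · have e1 : gno D = 2 ^ 19 * near 4 D := by unfold gno near; ring
    have e2 : W953.PT.vno D = 2 ^ 42 * near 8 D := by unfold W953.PT.vno near; ring
    refine ⟨fun E _ g p hp h => ?_, fun M r U hM hU => ?_⟩
    · rw [← e1]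
      exact W953.SR.gen_bound D E g (wireTests_rank _) (wireTests_mono _) p hp h
    · rw [← e2] at hU
      obtain ⟨C, c1, c2, c3⟩ := W953.SR.hard_circ D M r U hM hU
      exact ⟨C, c1, c2, fun k hk p hcost hp =>
        c3 _ (wireTests _) (wireTests_rank _) (wireTests_mono _) k hk p hcost hp⟩

end Pool.Agent.Results.MP_9a4607_lc.TestsOnSlices
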